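import Pool.Agent.W558.WD.Stms
import Pool.Agent.W558.S2.Loc
import Pool.Agent.W973.CUT2

/-!
# Restriction of a model to the divisor of `F`
-/

set_option autoImplicit false
set_option linter.unusedVariables false
set_option linter.unusedSectionVars false

universe u

open Polynomial

namespace Pool.Agent.W177.WD

open Pool.Agent.W558 Pool.Agent.W973.CUT Pool.Agent.W973.CUT2

section lg

variable {k N : Type u} [Field k] [Field N] [Algebra k N] {A : Subalgebra k N} {κ : Type u}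
  [Field κ] [Algebra k κ] {φ : A →ₐ[k] κ}

/-- `a` is contained in `A` and has the logarithmic derivative `s`. -/
def LG (D : TV φ) (a : N) (s : κ) : Prop := ∃ ha : a ∈ A, D.D ⟨a, ha⟩ = φ ⟨a, ha⟩ * s

lemma LG.one (D : TV φ) : LG D 1 0 := by
  refine ⟨A.one_mem, ?_⟩
  rw [mul_zero]
  exact D.D_one

lemma LG.mul {D : TV φ} {a b : N} {s r : κ} (h1 : LG D a s) (h2 : LG D b r) :
    LG D (a * b) (s + r) := by
  obtain ⟨ha, ha'⟩ := h1
  obtain ⟨hb, hb'⟩ := h2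
  refine ⟨A.mul_mem ha hb, ?_⟩
  have h3 := D.leib ⟨a, ha⟩ ⟨b, hb⟩
  have h4 : φ (⟨a, ha⟩ * ⟨b, hb⟩) = φ ⟨a, ha⟩ * φ ⟨b, hb⟩ := map_mul _ _ _
  change D.D (⟨a, ha⟩ * ⟨b, hb⟩) = φ (⟨a, ha⟩ * ⟨b, hb⟩) * _
  rw [h3, h4, ha', hb']
  ring

lemma LG.pow {D : TV φ} {a : N} {s : κ} (h1 : LG D a s) (n : ℕ) :
    LG D (a ^ n) (n * s) := by
  induction n with
  | zero =>
    have := LG.one D
    simpa using this
  | succ n ih =>
    have := ih.mul h1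
    rw [← pow_succ] at this
    convert this using 1
    push_cast; ring

lemma LG.inv {D : TV φ} {a : N} {s : κ} (h1 : LG D a s) (h0 : a ≠ 0) (hi : a⁻¹ ∈ A) :
    LG D a⁻¹ (-s) := by
  obtain ⟨ha, ha'⟩ := h1
  refine ⟨hi, ?_⟩
  have h3 := D.leib ⟨a, ha⟩ ⟨a⁻¹, hi⟩
  have e : (⟨a, ha⟩ : A) * ⟨a⁻¹, hi⟩ = 1 := Subtype.ext (mul_inv_cancel₀ h0)
  have h4 : φ ⟨a, ha⟩ * φ ⟨a⁻¹, hi⟩ = 1 := by rw [← map_mul, e, map_one]
  rw [e, D.D_one, ha'] at h3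
  have h5 : D.D ⟨a⁻¹, hi⟩ = (φ ⟨a, ha⟩ * φ ⟨a⁻¹, hi⟩) * D.D ⟨a⁻¹, hi⟩ := by rw [h4, one_mul]
  rw [h5]
  have h6 : φ ⟨a, ha⟩ * D.D ⟨a⁻¹, hi⟩ = -(φ ⟨a⁻¹, hi⟩ * (φ ⟨a, ha⟩ * s)) := by
    linear_combination -h3
  calc φ ⟨a, ha⟩ * φ ⟨a⁻¹, hi⟩ * D.D ⟨a⁻¹, hi⟩ = φ ⟨a⁻¹, hi⟩ * (φ ⟨a, ha⟩ * D.D ⟨a⁻¹, hi⟩) := by
        ring
    _ = -(φ ⟨a, ha⟩ * φ ⟨a⁻¹, hi⟩) * (φ ⟨a⁻¹, hi⟩ * s) := by rw [h6]; ring
    _ = φ ⟨a⁻¹, hi⟩ * -s := by rw [h4]; ring

lemma LG.zpow {D : TV φ} {a : N} {s : κ} (h1 : LG D a s) (h0 : a ≠ 0) (n : ℤ)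
    (hi : 0 ≤ n ∨ a⁻¹ ∈ A) : LG D (a ^ n) (n * s) := by
  rcases le_or_gt 0 n with h | h
  · obtain ⟨m, rfl⟩ := Int.eq_ofNat_of_zero_le h
    rw [zpow_natCast]
    simpa using h1.pow m
  · have hi' : a⁻¹ ∈ A := hi.resolve_left (not_le.2 h)
    obtain ⟨m, hm⟩ := Int.eq_ofNat_of_zero_le (show 0 ≤ -n by omega)
    have h2 : n = -(m : ℤ) := by omega
    have h3 := (h1.inv h0 hi').pow m
    rw [h2, zpow_neg, zpow_natCast, ← inv_pow]
    convert h3 using 1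
    push_cast; ring

lemma LG.prod {D : TV φ} {I : Type} (s : Finset I) (a : I → N) (r : I → κ)
    (h : ∀ i ∈ s, LG D (a i) (r i)) : LG D (∏ i ∈ s, a i) (∑ i ∈ s, r i) := by
  classical
  induction s using Finset.induction_on with
  | empty => simpa using LG.one D
  | insert b s hb ih =>
    rw [Finset.prod_insert hb, Finset.sum_insert hb]
    exact (h b (Finset.mem_insert_self b s)).mul
      (ih fun i hi => h i (Finset.mem_insert_of_mem hi))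

lemma LG.mem {D : TV φ} {a : N} {s : κ} (h : LG D a s) : a ∈ A := h.1

lemma LG.eq {D : TV φ} {a : N} {s : κ} (h : LG D a s) (ha : a ∈ A) :
    D.D ⟨a, ha⟩ = φ ⟨a, ha⟩ * s := h.2

end lg

section chart

variable {k N : Type u} [Field k] [Field N] [Algebra k N] {T I : Type} [Fintype I]

lemma cast_zero (p : ℕ) [CharP k p] (κ : Type u) [Field κ] [Algebra k κ] : (p : κ) = 0 := by
  have := map_natCast (algebraMap k κ) p
  rw [← this, CharP.cast_eq_zero, map_zero]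

/-- The local equation of the divisor. -/
lemma chart (p : ℕ) [CharP k p] (M : LM (⊥ : Subalgebra k N) ⊤ T I) (F : N) (Q : Subalgebra k N)
    (y h : T → N) (c μ : I → ℤ) (hPS : PS p M F Q y h c μ) (hF : Fin2 M y c) (t : T) :
    ∃ f ∈ M.A t, ∃ u, u ≠ 0 ∧ u ∈ Q ∧ u⁻¹ ∈ Q ∧ F = u * f ∧
      ∀ (κ : Type u) [Field κ] [Algebra k κ] (φ : M.A t →ₐ[k] κ) (hf : f ∈ M.A t),
        φ ⟨f, hf⟩ = 0 → ∃ D : TV φ, D.D ⟨f, hf⟩ ≠ 0 ∧
          ∀ i, φ ⟨M.x t i, M.xA t i⟩ = 0 → D.D ⟨M.x t i, M.xA t i⟩ = 0 := by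
  have hx0 := M.x0 t
  have hy0 := hPS.y0 t
  have hxQ : ∀ i, M.x t i ∈ Q := fun i => hPS.AQ t (M.xA t i)
  have hyQ : y t ∈ Q := hPS.AQ t (hPS.yA t)
  have hz : ∀ (n : ℤ) i, M.x t i ^ n ∈ Q := fun n i =>
    zpow_mem_of (hxQ i) (Or.inr (hPS.xQ t i))
  have hP0 : ∀ m : I → ℤ, ∏ i, M.x t i ^ m i ≠ 0 := fun m =>
    Finset.prod_ne_zero_iff.2 fun i _ => zpow_ne_zero _ (hx0 i)
  have hPQ : ∀ m : I → ℤ, ∏ i, M.x t i ^ m i ∈ Q := fun m => Q.prod_mem fun i _ => hz _ i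
  have hPQ' : ∀ m : I → ℤ, (∏ i, M.x t i ^ m i)⁻¹ ∈ Q := fun m => by
    rw [← Finset.prod_inv_distrib]
    refine Q.prod_mem fun i _ => ?_
    rw [← zpow_neg]
    exact hz _ i
  have hneg : ∀ m : I → ℤ, ∏ i, M.x t i ^ (-m i) = (∏ i, M.x t i ^ m i)⁻¹ := fun m => by
    rw [← Finset.prod_inv_distrib]
    exact Finset.prod_congr rfl fun i _ => zpow_neg _ _
  rcases hF t with h1 | ⟨h1, h2⟩
  · -- first case
    have hXA : (∏ i, M.x t i ^ (-c i)) * y t ^ p ∈ M.A t := by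
      refine (M.A t).mul_mem ((M.A t).prod_mem fun i _ => ?_) ((M.A t).pow_mem (hPS.yA t) p)
      refine zpow_mem_of (M.xA t i) ?_
      rcases h1 i with h | h
      · left; omega
      · exact Or.inr h
    refine ⟨(∏ i, M.x t i ^ (-c i)) * y t ^ p - h t, (M.A t).sub_mem hXA (hPS.hA t),
      (∏ i, M.x t i ^ ((p : ℤ) * μ i)) * ∏ i, M.x t i ^ c i,
      mul_ne_zero (hP0 _) (hP0 _), Q.mul_mem (hPQ _) (hPQ _), ?_, ?_, ?_⟩
    · rw [mul_inv]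
      exact Q.mul_mem (hPQ' _) (hPQ' _)
    · rw [hneg]
      have := hP0 c
      conv_lhs => rw [hPS.eq t]
      rw [mul_assoc]
      congr 1
      rw [mul_sub, ← mul_assoc, mul_inv_cancel₀ this, one_mul]
    · intro κ _ _ φ hf hφ
      obtain ⟨v, hv⟩ := hPS.ln t κ φ
      have hLx : ∀ i, LG v.D (M.x t i) (v.e (some i)) := fun i =>
        ⟨M.xA t i, v.hx (some i) (M.xA t i)⟩
      have hLy : LG v.D (y t) (v.e none) := ⟨hPS.yA t, v.hx none (hPS.yA t)⟩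
      refine ⟨v.D, ?_, fun i hi => ?_⟩
      · have hX : LG v.D ((∏ i, M.x t i ^ (-c i)) * y t ^ p)
            (∑ i, ((-c i : ℤ) : κ) * v.e (some i) + (p : κ) * v.e none) := by
          refine LG.mul (LG.prod _ _ _ fun i _ => (hLx i).zpow (hx0 i) _ ?_) (hLy.pow p)
          rcases h1 i with h | h
          · left; omega
          · exact Or.inr h
        rw [cast_zero (k := k) p κ, zero_mul, add_zero] at hX
        have e1 : (⟨_, hf⟩ : M.A t) = ⟨_, hXA⟩ - ⟨h t, hPS.hA t⟩ := rfl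
        have e2 : φ ⟨_, hXA⟩ = φ ⟨h t, hPS.hA t⟩ := by
          rw [e1, map_sub, sub_eq_zero] at hφ
          exact hφ
        have e3 : v.D.D ⟨_, hf⟩ = -(om v (fun o => o.elim 0 c) (hPS.hA t)) := by
          rw [e1, map_sub, hX.eq hXA, e2, om, Fintype.sum_option]
          simp only [Option.elim_none, Option.elim_some, Int.cast_zero, zero_mul, zero_add,
            Int.cast_neg, neg_mul, Finset.sum_neg_distrib]
          ring
        rw [e3]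
        exact neg_ne_zero.2 hv
      · rw [(hLx i).eq (M.xA t i), hi, zero_mul]
  · -- second case
    have hcA : ∀ i, M.x t i ^ c i ∈ M.A t := fun i => zpow_mem_of (M.xA t i) (h1 i)
    have hXA : (∏ i, M.x t i ^ (c i)) * (y t)⁻¹ ^ p ∈ M.A t :=
      (M.A t).mul_mem ((M.A t).prod_mem fun i _ => hcA i) ((M.A t).pow_mem h2 p)
    have hXhA : (∏ i, M.x t i ^ (c i)) * (y t)⁻¹ ^ p * h t ∈ M.A t :=
      (M.A t).mul_mem hXA (hPS.hA t)
    refine ⟨1 - (∏ i, M.x t i ^ (c i)) * (y t)⁻¹ ^ p * h t,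
      (M.A t).sub_mem (M.A t).one_mem hXhA,
      (∏ i, M.x t i ^ ((p : ℤ) * μ i)) * y t ^ p,
      mul_ne_zero (hP0 _) (pow_ne_zero _ hy0), Q.mul_mem (hPQ _) (Q.pow_mem hyQ p), ?_, ?_, ?_⟩
    · rw [mul_inv, ← inv_pow]
      exact Q.mul_mem (hPQ' _) (Q.pow_mem (hPS.yQ t) p)
    · conv_lhs => rw [hPS.eq t]
      have := pow_ne_zero p hy0
      rw [mul_assoc]
      congr 1
      rw [inv_pow]
      field_simp
    · intro κ _ _ φ hf hφ
      obtain ⟨v, hv⟩ := hPS.ln t κ φ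
      have hLx : ∀ i, LG v.D (M.x t i) (v.e (some i)) := fun i =>
        ⟨M.xA t i, v.hx (some i) (M.xA t i)⟩
      have hLy : LG v.D (y t) (v.e none) := ⟨hPS.yA t, v.hx none (hPS.yA t)⟩
      refine ⟨v.D, ?_, fun i hi => ?_⟩
      · have hX : LG v.D ((∏ i, M.x t i ^ (c i)) * (y t)⁻¹ ^ p)
            (∑ i, ((c i : ℤ) : κ) * v.e (some i) + (p : κ) * -v.e none) := by
          exact LG.mul (LG.prod _ _ _ fun i _ => (hLx i).zpow (hx0 i) _ (h1 i))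
            ((hLy.inv hy0 h2).pow p)
        rw [cast_zero (k := k) p κ, zero_mul, add_zero] at hX
        have e1 : (⟨_, hf⟩ : M.A t) = 1 - ⟨_, hXA⟩ * ⟨h t, hPS.hA t⟩ := rfl
        have e2 : φ ⟨_, hXA⟩ * φ ⟨h t, hPS.hA t⟩ = 1 := by
          rw [e1, map_sub, map_one, map_mul, sub_eq_zero] at hφ
          exact hφ.symm
        have e3 : v.D.D ⟨_, hf⟩ = -(φ ⟨_, hXA⟩ * om v (fun o => o.elim 0 c) (hPS.hA t)) := by
          rw [e1, map_sub, v.D.D_one, v.D.leib, hX.eq hXA, om, Fintype.sum_option]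
          simp only [Option.elim_none, Option.elim_some, Int.cast_zero, zero_mul, zero_add]
          ring
        rw [e3]
        exact neg_ne_zero.2 (mul_ne_zero (left_ne_zero_of_mul_eq_one e2) hv)
      · rw [(hLx i).eq (M.xA t i), hi, zero_mul]

/-- Simple normal crossings with the new divisor. -/
lemma snc_option (M : LM (⊥ : Subalgebra k N) ⊤ T I) (t : T) (f : N) (hfA : f ∈ M.A t)
    (hv : ∀ (κ : Type u) [Field κ] [Algebra k κ] (φ : M.A t →ₐ[k] κ) (hf : f ∈ M.A t),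
        φ ⟨f, hf⟩ = 0 → ∃ D : TV φ, D.D ⟨f, hf⟩ ≠ 0 ∧
          ∀ i, φ ⟨M.x t i, M.xA t i⟩ = 0 → D.D ⟨M.x t i, M.xA t i⟩ = 0) :
    SNC (M.A t) (fun o : Option I => o.elim f (M.x t)) := by
  intro κ _ _ φ o ho hφ
  cases o with
  | none =>
    obtain ⟨D, hD, hD'⟩ := hv κ φ ho hφ
    refine ⟨TV.comb (D.D ⟨f, ho⟩)⁻¹ 0 D D, ?_, ?_⟩
    · rw [TV.comb_D, zero_mul, add_zero]
      exact inv_mul_cancel₀ hD
    · rintro (_ | j) hj hne hφj
      · exact absurd rfl hne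
      · rw [TV.comb_D, zero_mul, add_zero]
        have : D.D ⟨M.x t j, hj⟩ = 0 := hD' j hφj
        change _ * D.D ⟨M.x t j, hj⟩ = 0
        rw [this, mul_zero]
  | some i =>
    obtain ⟨D, hD1, hD2⟩ := M.snc t κ φ i ho hφ
    by_cases h0 : φ ⟨f, hfA⟩ = 0
    · obtain ⟨E, hE, hE'⟩ := hv κ φ hfA h0
      refine ⟨TV.comb 1 (-(D.D ⟨f, hfA⟩ * (E.D ⟨f, hfA⟩)⁻¹)) D E, ?_, ?_⟩
      · rw [TV.comb_D]
        have : E.D ⟨M.x t i, ho⟩ = 0 := hE' i hφ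
        change 1 * D.D ⟨M.x t i, ho⟩ + _ * E.D ⟨M.x t i, ho⟩ = 1
        rw [this, hD1, mul_zero, add_zero, one_mul]
      · rintro (_ | j) hj hne hφj
        · rw [TV.comb_D]
          change 1 * D.D ⟨f, hfA⟩ + -(D.D ⟨f, hfA⟩ * (E.D ⟨f, hfA⟩)⁻¹) * E.D ⟨f, hfA⟩ = 0
          field_simp
          ring
        · rw [TV.comb_D]
          have h3 : E.D ⟨M.x t j, hj⟩ = 0 := hE' j hφj
          have h4 : D.D ⟨M.x t j, hj⟩ = 0 := hD2 j hj (by
            rintro rfl; exact hne rfl) hφj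
          change 1 * D.D ⟨M.x t j, hj⟩ + _ * E.D ⟨M.x t j, hj⟩ = 0
          rw [h3, h4, mul_zero, mul_zero, add_zero]
    · refine ⟨D, hD1, ?_⟩
      rintro (_ | j) hj hne hφj
      · exact absurd hφj h0
      · exact hD2 j hj (by rintro rfl; exact hne rfl) hφj

end chart

theorem main : WD_pcut.{u} := by
  intro p _ k N K _ _ _ _ _ _ _ T I G _ _ M F Q y h c μ g Γ hPS hLq hFn hF2 hFQ hF0 π hπ
    hsurj hQ g' hg'
  classical
  have hloc : S2_loc.{u} := loc_main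
  have hT := nonempty_T M
  have hAQ := hPS.AQ
  choose f hfA u hu0 huQ huQ' hFu hv using chart p M F Q y h c μ hPS hF2
  have hf0 : ∀ t, f t ≠ 0 := by
    intro t h0
    apply hF0
    rw [hFu t, h0, mul_zero]
  have hFπ : pq π F = 0 := by
    rw [pq_of π hFQ, hπ]
    exact ⟨1, Q.one_mem, (mul_one F).symm⟩
  have hfπ : ∀ t, pq π (f t) = 0 := by
    intro t
    have h1 : f t = (u t)⁻¹ * F := by
      rw [hFu t, ← mul_assoc, inv_mul_cancel₀ (hu0 t), one_mul]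
    rw [h1, pq_mul π (huQ' t) hFQ, hFπ, mul_zero]
  have hker0 : ∀ a ∈ Q, pq π a = 0 → ∃ r ∈ Q, a = F * r := by
    intro a ha h0
    rw [pq_of π ha, hπ] at h0
    exact h0
  have hmin : ∀ t, RingHom.ker (qm π (M.A t) (hAQ t)) ∈
      (Ideal.span {(⟨f t, hfA t⟩ : M.A t)}).minimalPrimes := by
    intro t
    refine ⟨⟨RingHom.ker_isPrime _, ?_⟩, ?_⟩
    · rw [Ideal.span_singleton_le_iff_mem, RingHom.mem_ker, qm_apply π (hAQ t) (hfA t)]
      exact Subtype.ext (hfπ t)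
    · rintro P'' ⟨hp'', hle''⟩ hPle ⟨a, ha⟩ haker
      have ha0 : pq π a = 0 := by
        rw [RingHom.mem_ker, qm_apply π (hAQ t) ha] at haker
        exact congrArg Subtype.val haker
      obtain ⟨r, hr, har⟩ := hker0 a (hAQ t ha) ha0
      obtain ⟨α, hα, β, hβ, hβ0, hβQ, hαβ⟩ := hLq t (u t * r) (Q.mul_mem (huQ t) hr)
      have h3 : (⟨β, hβ⟩ : M.A t) * ⟨a, ha⟩ = ⟨f t, hfA t⟩ * ⟨α, hα⟩ := by
        apply Subtype.ext
        change β * a = f t * α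
        rw [har, ← hαβ, hFu t]
        ring
      have h4 : (⟨β, hβ⟩ : M.A t) * ⟨a, ha⟩ ∈ P'' := by
        rw [h3]
        exact P''.mul_mem_right _ (hle'' (Ideal.mem_span_singleton_self _))
      rcases hp''.mem_or_mem h4 with h5 | h5
      · exfalso
        have h6 := hPle h5
        rw [RingHom.mem_ker, qm_apply π (hAQ t) hβ] at h6
        exact pq_ne π hβ0 (hAQ t hβ) hβQ (congrArg Subtype.val h6)
      · exact h5
  have hv0 : ∀ t (κ : Type u) [Field κ] [Algebra k κ] (φ : M.A t →ₐ[k] κ),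
      φ ⟨f t, hfA t⟩ = 0 → ∃ D : TV φ, D.D ⟨f t, hfA t⟩ ≠ 0 := by
    intro t κ _ _ φ hφ
    obtain ⟨δ, h1, -⟩ := hv t κ φ (hfA t) hφ
    exact ⟨δ, h1⟩
  have hker : ∀ t, LK π (M.A t) (f t) := by
    intro t m' hm' hPm'
    have hsm := M.sm t
    have hsq : Algebra.Smooth k (M.A t ⧸ Ideal.span {(⟨f t, hfA t⟩ : M.A t)}) :=
      smooth_quot _ (hv0 t)
    obtain ⟨e, he, h1⟩ := local_ker hloc (k := k) (⟨f t, hfA t⟩ : M.A t)
      (RingHom.ker (qm π (M.A t) (hAQ t))) m' (hmin t) hm' (by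
        rintro ⟨a, ha⟩ haker
        rw [RingHom.mem_ker, qm_apply π (hAQ t) ha] at haker
        exact hPm' a ha (congrArg Subtype.val haker))
    refine ⟨e, he, fun a ha h0 => ?_⟩
    obtain ⟨b', hb'⟩ := h1 ⟨a, ha⟩ (by
      rw [RingHom.mem_ker, qm_apply π (hAQ t) ha]
      exact Subtype.ext h0)
    have h2 : (e : N) * a = f t * b' := congrArg Subtype.val hb'
    rw [h2, mul_div_cancel_left₀ _ (hf0 t)]
    exact b'.2
  have hsm' : ∀ t, Algebra.Smooth k (im π (M.A t) (hAQ t)) := by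
    intro t
    have := M.sm t
    exact smooth_im2 π hloc (hAQ t) (hfA t) (hfπ t) (hmin t) (hv0 t)
  have hK' : ∀ x : N, (∃ a b : Q, π b ≠ 0 ∧ x * b = a) ∨ (∃ a b : Q, π b ≠ 0 ∧ x⁻¹ * b = a) := by
    intro x
    rcases hQ x with h1 | h1
    · left
      exact ⟨⟨x, h1⟩, 1, by rw [map_one]; exact one_ne_zero, by simp⟩
    · right
      exact ⟨⟨x⁻¹, h1⟩, 1, by rw [map_one]; exact one_ne_zero, by simp⟩
  obtain ⟨M', hA', hx'⟩ := exists_model2 π hK' M hAQ hPS.xQ f hfA hf0 hfπ hker hsm'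
    (fun t => snc_option M t (f t) (hfA t) (hv t))
  have hgQ : ∀ b, g b ∈ Q := by
    intro b
    obtain ⟨t⟩ := hT
    obtain ⟨w, h0, h1, h2, h3⟩ := hFn b t
    rw [h3]
    exact Q.mul_mem (hAQ t h1) (Q.prod_mem fun i _ =>
      zpow_mem_of (hAQ t (M.xA t i)) (Or.inr (hPS.xQ t i)))
  refine ⟨T, I, inferInstance, inferInstance, M', Γ, ?_, ?_⟩
  · intro a t
    obtain ⟨w, h0, h1, h2, h3⟩ := hFn a t
    rw [hA', hx']
    refine ⟨pq π w, pq_ne π h0 (hAQ t h1) (hAQ t h2), pq_mem π (hAQ t) h1, ?_, ?_⟩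
    · rw [← pq_inv π h0 (hAQ t h1) (hAQ t h2)]
      exact pq_mem π (hAQ t) h2
    · have h4 : ∀ i, M.x t i ^ Γ a i ∈ Q := fun i =>
        zpow_mem_of (hAQ t (M.xA t i)) (Or.inr (hPS.xQ t i))
      rw [hg' a (hgQ a), ← pq_of π (hgQ a), h3, pq_mul π (hAQ t h1) (Q.prod_mem fun i _ => h4 i),
        pq_prod π _ _ fun i _ => h4 i]
      congr 1
      refine Finset.prod_congr rfl fun i _ => ?_
      exact pq_zpow π (M.x0 t i) (hAQ t (M.xA t i)) (hPS.xQ t i) _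
  · intro t x
    obtain ⟨q, rfl⟩ := hsurj x
    obtain ⟨α, hα, β, hβ, hβ0, hβQ, hαβ⟩ := hLq t q q.2
    rw [hA']
    have h1 : pq π β ≠ 0 := pq_ne π hβ0 (hAQ t hβ) hβQ
    refine ⟨pq π α, pq_mem π (hAQ t) hα, pq π β, pq_mem π (hAQ t) hβ, h1, ?_⟩
    rw [eq_mul_inv_iff_mul_eq₀ h1, ← pq_coe π q, ← pq_mul π q.2 (hAQ t hβ), hαβ]

end Pool.Agent.W177.WD
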